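import Pool.Agent.WK7.Stmts
import Pool.Agent.Helper78_E.SpecL
import Pool.Agent.Helper72_E.Bip
import Pool.Agent.Helper85_E.Lapu
import Pool.Agent.Helper15_E.Line

/-!
# MP_7d2497_an, squad WK7: UNQ
-/

set_option autoImplicit false

namespace Pool.Agent.WK7.H15

open MeasureTheory Filter Topology Complex
open Pool.Agent.H78E Pool.Agent.WKS Pool.Agent.WK5
open Pool.Agent.WK3 (QC Lin)

noncomputable section

/-- the part with the identity theorem -/
theorem neg_zero_of_pos_zero (hBi : BipolarStmt) {φ : ℝ → ℝ} (hφ : IsWeight φ) {G : ℝ → ℂ}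
    (hG : LInf φ G) (hS : Spec φ G ≠ Set.univ) (h0 : ∀ᵐ t : ℝ, 0 ≤ t → G t = 0) :
    ∀ z : ℂ, z.im < 0 → ∫ t in Set.Iio (0 : ℝ), G t * Complex.exp (Complex.I * z * t) = 0 := by
  obtain ⟨Kf, hKf, hKpos, hKneg⟩ := Pool.Agent.Helper15_E.line hBi φ hφ G hG
  have hcl : IsClosed (Spec φ G) := isClosed_Spec hBi hφ hG
  obtain ⟨x, hx⟩ := (Set.ne_univ_iff_exists_notMem _).mp hS
  obtain ⟨r, hr, hball⟩ := Metric.isOpen_iff.mp hcl.isOpen_compl x hx
  set U1 : Set ℂ := {z : ℂ | 0 < z.im} with hU1
  set U2 : Set ℂ := Metric.ball (x : ℂ) r with hU2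
  set U3 : Set ℂ := {z : ℂ | z.im < 0} with hU3
  have hopen : IsOpen (U1 ∪ U2 ∪ U3) := by
    refine (IsOpen.union ?_ ?_).union ?_
    · exact isOpen_lt continuous_const Complex.continuous_im
    · exact Metric.isOpen_ball
    · exact isOpen_lt Complex.continuous_im continuous_const
  have hr2 : 0 < r / 2 := by linarith
  have hI2 : ((x : ℂ) + Complex.I * ((r / 2 : ℝ) : ℂ)) ∈ U2 := by
    rw [hU2, Metric.mem_ball, dist_eq_norm, add_sub_cancel_left, norm_mul, Complex.norm_I,
      Complex.norm_real, Real.norm_of_nonneg hr2.le]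
    linarith
  have hI3 : ((x : ℂ) - Complex.I * ((r / 2 : ℝ) : ℂ)) ∈ U2 := by
    rw [hU2, Metric.mem_ball, dist_eq_norm, sub_sub_cancel_left, norm_neg, norm_mul,
      Complex.norm_I, Complex.norm_real, Real.norm_of_nonneg hr2.le]
    linarith
  have hconn : IsPreconnected (U1 ∪ U2 ∪ U3) := by
    have c1 : IsPreconnected U1 := (convex_halfSpace_im_gt 0).isPreconnected
    have c2 : IsPreconnected U2 := (convex_ball _ _).isPreconnected
    have c3 : IsPreconnected U3 := (convex_halfSpace_im_lt 0).isPreconnected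
    have c12 : IsPreconnected (U1 ∪ U2) := by
      refine IsPreconnected.union _ ?_ hI2 c1 c2
      simp [hU1, hr]
    refine IsPreconnected.union _ (Or.inr hI3) ?_ c12 c3
    simp [hU3, hr]
  have hKan : AnalyticOnNhd ℂ Kf (U1 ∪ U2 ∪ U3) := by
    apply DifferentiableOn.analyticOnNhd _ hopen
    apply hKf.mono
    rintro z ((hz | hz) | hz) y hy h
    · rw [hU1, Set.mem_ofPred_eq, h, Complex.ofReal_im] at hz
      exact lt_irrefl _ hz
    · rw [hU2, Metric.mem_ball, h, Complex.dist_eq, ← Complex.ofReal_sub, Complex.norm_real,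
        ← dist_eq_norm] at hz
      exact hball (Metric.mem_ball.mpr hz) hy
    · rw [hU3, Set.mem_ofPred_eq, h, Complex.ofReal_im] at hz
      exact lt_irrefl _ hz
  have hupper : ∀ z : ℂ, 0 < z.im → Kf z = 0 := by
    intro z hz
    rw [hKpos z hz]
    have h1 : ∫ t in Set.Ioi (0 : ℝ), G t * Complex.exp (Complex.I * z * t) =
        ∫ t in Set.Ioi (0 : ℝ), (0 : ℂ) := by
      apply setIntegral_congr_ae measurableSet_Ioi
      filter_upwards [h0] with t ht ht0
      rw [ht (le_of_lt ht0), zero_mul]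
    rw [h1]
    simp
  have heq : Set.EqOn Kf (fun _ => (0 : ℂ)) (U1 ∪ U2 ∪ U3) := by
    apply hKan.eqOn_of_preconnected_of_eventuallyEq analyticOnNhd_const hconn (z₀ := Complex.I)
    · left; left; simp [hU1]
    · have : ∀ᶠ z : ℂ in 𝓝 Complex.I, 0 < z.im :=
        (isOpen_lt continuous_const Complex.continuous_im).mem_nhds (by simp)
      filter_upwards [this] with z hz
      exact hupper z hz
  intro z hz
  have e1 : Kf z = 0 := heq (Or.inr hz)
  rw [hKneg z hz, neg_eq_zero] at e1
  exact e1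

theorem unq : UnqStmt := by
  intro φ hφ G hG hS h0
  have hneg := neg_zero_of_pos_zero bipolar hφ hG hS h0
  obtain ⟨hGm, C, hC⟩ := hG
  -- the reflected function
  set f : ℝ → ℂ := fun t => if 0 ≤ t then G (-t) * Complex.exp (-(t : ℂ)) else 0 with hf
  have hfm : AEStronglyMeasurable f volume := by
    have h1 : AEStronglyMeasurable (fun t : ℝ => G (-t) * Complex.exp (-(t : ℂ))) volume := by
      refine AEStronglyMeasurable.mul ?_ (Continuous.aestronglyMeasurable (by fun_prop))
      exact hGm.comp_quasiMeasurePreserving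
        (Measure.measurePreserving_neg (volume : Measure ℝ)).quasiMeasurePreserving
    have h2 : f = (Set.Ici (0 : ℝ)).indicator (fun t : ℝ => G (-t) * Complex.exp (-(t : ℂ))) := by
      funext t
      by_cases ht : 0 ≤ t
      · rw [Set.indicator_of_mem (show t ∈ Set.Ici (0 : ℝ) from ht), hf]
        simp only [if_pos ht]
      · rw [Set.indicator_of_notMem (show t ∉ Set.Ici (0 : ℝ) from ht), hf]
        simp only [if_neg ht]
    rw [h2]
    exact h1.indicator measurableSet_Ici
  have hCneg : ∀ᵐ t : ℝ, ‖G (-t)‖ ≤ C * φ (-t) :=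
    (Measure.measurePreserving_neg (volume : Measure ℝ)).quasiMeasurePreserving.ae hC
  have hfi : Integrable f volume := by
    have h1 : Integrable (fun t : ℝ => |C| * (φ (-t) * Real.exp (-((1 : ℝ) * |(-t)|)))) volume :=
      ((Pool.Agent.Helper15_E.integrable_weight hφ one_pos).comp_neg).const_mul _
    refine h1.mono' hfm ?_
    filter_upwards [hCneg] with t ht
    have hφ0 : 0 ≤ φ (-t) := zero_le_one.trans (hφ.one_le _)
    by_cases h : 0 ≤ t
    · have e1 : f t = G (-t) * Complex.exp (-(t : ℂ)) := by rw [hf]; simp only [if_pos h]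
      rw [e1, norm_mul, Complex.norm_exp]
      have e2 : (-(t : ℂ)).re = -((1 : ℝ) * |(-t)|) := by
        rw [abs_neg, abs_of_nonneg h]
        simp
      rw [e2, ← mul_assoc]
      refine mul_le_mul_of_nonneg_right (ht.trans ?_) (Real.exp_pos _).le
      exact mul_le_mul_of_nonneg_right (le_abs_self C) hφ0
    · have e1 : f t = 0 := by rw [hf]; simp only [if_neg h]
      rw [e1, norm_zero]
      positivity
  have hone : IsWeight (fun _ => (1 : ℝ)) :=
    { meas := measurable_const
      one_le := fun _ => le_rfl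
      submul := fun _ _ => by norm_num
      top := by simp
      bot := by simp }
  obtain ⟨F, hF⟩ := toY (φ := fun _ => (1 : ℝ)) hone (f := f)
    ⟨hfm, by simpa using hfi.norm⟩ (fun t ht => by rw [hf]; simp only [if_neg (not_le.mpr ht)])
  have hF0 : F = 0 := by
    apply Pool.Agent.H78E.H85.lapu
    intro z hz
    rw [chi_eq_Ioi hz.le]
    have h1 : ∫ t in Set.Ioi (0 : ℝ), ((F : X) : ℝ → ℂ) t *
        Complex.exp (-(Complex.I * (t : ℂ) * z)) = ∫ t in Set.Ioi (0 : ℝ),
        (fun s : ℝ => G s * Complex.exp (Complex.I * (z - Complex.I) * s)) (-t) := by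
      apply setIntegral_congr_ae measurableSet_Ioi
      filter_upwards [hF] with t ht ht0
      have h2 : (0 : ℝ) ≤ t := le_of_lt ht0
      rw [ht, hf]
      simp only [if_pos h2]
      rw [mul_assoc, ← Complex.exp_add]
      congr 2
      push_cast
      have h3 : Complex.I * (z - Complex.I) * -(t : ℂ) =
          -(Complex.I * (t : ℂ) * z) + (Complex.I * Complex.I) * t := by ring
      rw [h3, Complex.I_mul_I]
      ring
    rw [h1, integral_comp_neg_Ioi (0 : ℝ)
      (fun s : ℝ => G s * Complex.exp (Complex.I * (z - Complex.I) * s)), neg_zero,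
      integral_Iic_eq_integral_Iio]
    apply hneg
    simp only [Complex.sub_im, Complex.I_im]
    linarith
  have hf0 : f =ᵐ[volume] 0 := by
    rw [hF0] at hF
    refine hF.symm.trans ?_
    exact Lp.coeFn_zero _ _ _
  have h1 : ∀ᵐ t : ℝ, 0 ≤ t → G (-t) = 0 := by
    filter_upwards [hf0] with t ht h
    have e1 : f t = G (-t) * Complex.exp (-(t : ℂ)) := by rw [hf]; simp only [if_pos h]
    rw [e1] at ht
    exact (mul_eq_zero.mp ht).resolve_right (Complex.exp_ne_zero _)
  have h2 : ∀ᵐ t : ℝ, 0 ≤ -t → G (- -t) = 0 :=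
    (Measure.measurePreserving_neg (volume : Measure ℝ)).quasiMeasurePreserving.ae h1
  filter_upwards [h0, h2] with t h3 h4
  rcases le_total 0 t with h | h
  · exact h3 h
  · have := h4 (by linarith)
    rwa [neg_neg] at this

end

end Pool.Agent.WK7.H15
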